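import Mathlib

namespace Pool.Agent.Results.MP_cc6d20_al.SemiSeparated

/-- Terms in the two operations: `ld a b` is `a \ b` and `rd a b` is `a / b`. -/
inductive Tm
  | var : ℕ → Tm
  | ld : Tm → Tm → Tm
  | rd : Tm → Tm → Tm

/-- Value of a term in the bimagma `(S, l, r)`. -/
def Tm.eval {S : Type*} (l r : S → S → S) (ρ : ℕ → S) : Tm → S
  | .var n => ρ n
  | .ld a b => l (a.eval l r ρ) (b.eval l r ρ)
  | .rd a b => r (a.eval l r ρ) (b.eval l r ρ)

/-- The operation `\` occurs in the term. -/
def Tm.usesL : Tm → Prop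
  | .var _ => False
  | .ld _ _ => True
  | .rd a b => a.usesL ∨ b.usesL

/-- The operation `/` occurs in the term. -/
def Tm.usesR : Tm → Prop
  | .var _ => False
  | .ld a b => a.usesR ∨ b.usesR
  | .rd _ _ => True

/-- The identity `p.1 = p.2` involves both operations. -/
def Mixed (p : Tm × Tm) : Prop := (p.1.usesL ∨ p.2.usesL) ∧ (p.1.usesR ∨ p.2.usesR)

/-- `(S, l, r)` is the division bimagma of an inverse semigroup on `S`. -/
def IsDivisionBimagma {S : Type*} (l r : S → S → S) : Prop :=
  ∃ (m : S → S → S) (i : S → S), (∀ x y z, m (m x y) z = m x (m y z)) ∧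
    (∀ x y, (m (m x y) x = x ∧ m (m y x) y = y) ↔ y = i x) ∧
    (∀ x y, l x y = m (i x) y) ∧ ∀ x y, r x y = m x (i y)

section
variable {S : Type*} [Semigroup S] (i : S → S)
  (h : ∀ x y : S, (x * y * x = x ∧ y * x * y = y) ↔ y = i x)
include h

lemma r1 (x : S) : x * i x * x = x := ((h x _).2 rfl).1
lemma r2 (x : S) : i x * x * i x = i x := ((h x _).2 rfl).2
lemma ii (x : S) : i (i x) = x := ((h (i x) x).1 ⟨r2 i h x, r1 i h x⟩).symm
lemma idem_i {e : S} (he : e * e = e) : i e = e := ((h e e).1 ⟨by rw [he, he], by rw [he, he]⟩).symm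

lemma idem_mul {e f : S} (he : e * e = e) (hf : f * f = f) : e * f * (e * f) = e * f := by
  have he' : ∀ s, e * (e * s) = e * s := fun s => by rw [← mul_assoc, he]
  have hf' : ∀ s, f * (f * s) = f * s := fun s => by rw [← mul_assoc, hf]
  set x := i (e * f) with hx
  have a1 : e * f * x * (e * f) = e * f := r1 i h _
  have a2 : x * (e * f) * x = x := r2 i h _
  have a3 : f * x * e = x := by
    refine (h (e * f) _).1 ⟨?_, ?_⟩
    · calc e * f * (f * x * e) * (e * f) = e * f * x * (e * f) := by
            simp only [mul_assoc, he', hf']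
        _ = e * f := a1
    · calc f * x * e * (e * f) * (f * x * e) = f * (x * (e * f) * x) * e := by
            simp only [mul_assoc, he', hf']
        _ = f * x * e := by rw [a2]
  have a4 : x * x = x := by
    calc x * x = (f * x * e) * (f * x * e) := by rw [a3]
      _ = f * (x * (e * f) * x) * e := by simp only [mul_assoc]
      _ = x := by rw [a2, a3]
  have a5 : e * f = x := by rw [← idem_i i h a4, hx, ii i h]
  rw [a5, a4]

lemma idem_comm {e f : S} (he : e * e = e) (hf : f * f = f) : e * f = f * e := by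
  have he' : ∀ s, e * (e * s) = e * s := fun s => by rw [← mul_assoc, he]
  have hf' : ∀ s, f * (f * s) = f * s := fun s => by rw [← mul_assoc, hf]
  have a1 := idem_mul i h he hf
  have a2 := idem_mul i h hf he
  have a3 : f * e = i (e * f) := by
    refine (h (e * f) _).1 ⟨?_, ?_⟩
    · calc e * f * (f * e) * (e * f) = e * f * (e * f) := by simp only [mul_assoc, he', hf']
        _ = e * f := a1
    · calc f * e * (e * f) * (f * e) = f * e * (f * e) := by simp only [mul_assoc, he', hf']
        _ = f * e := a2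
  rw [a3, idem_i i h a1]

lemma p1 (x : S) : x * i x * (x * i x) = x * i x := by rw [← mul_assoc, r1 i h]
lemma p2 (x : S) : i x * x * (i x * x) = i x * x := by rw [← mul_assoc, r2 i h]

lemma i_mul (x y : S) : i (x * y) = i y * i x := by
  have c := idem_comm i h (p2 i h x) (p1 i h y)
  refine ((h (x * y) _).1 ⟨?_, ?_⟩).symm
  · calc x * y * (i y * i x) * (x * y) = x * ((y * i y) * (i x * x)) * y := by
          simp only [mul_assoc]
      _ = (x * i x * x) * (y * i y * y) := by rw [← c]; simp only [mul_assoc]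
      _ = x * y := by rw [r1 i h, r1 i h]
  · calc i y * i x * (x * y) * (i y * i x) = i y * ((i x * x) * (y * i y)) * i x := by
          simp only [mul_assoc]
      _ = (i y * y * i y) * (i x * x * i x) := by rw [c]; simp only [mul_assoc]
      _ = i y * i x := by rw [r2 i h, r2 i h]

end

lemma fwd {S : Type*} {l r : S → S → S} (H : IsDivisionBimagma l r) :
    (∀ x y z, l (r x y) z = r (r y x) (l z (r z z))) ∧ (∀ x, r x (l x x) = x) ∧
    (∀ x, r (r x x) (r x x) = r x x) ∧ (∀ a b c d, r a (r b (r c d)) = r (r a (r d c)) b) ∧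
    (∀ x y, r (r y x) (r (r x y) (r x y)) = r y x) ∧
    (∀ x y, r (r (r x y) (r x y)) (r y x) = r x y) ∧
    ∀ x y, r (r x x) (r y y) = r (r y y) (r x x) := by
  obtain ⟨m, i, ha, h, hl, hr⟩ := H
  letI : Semigroup S := { mul := m, mul_assoc := ha }
  have h' : ∀ x y : S, (x * y * x = x ∧ y * x * y = y) ↔ y = i x := h
  have hl' : ∀ x y, l x y = i x * y := hl
  have hr' : ∀ x y, r x y = x * i y := hr
  have e1 := ii i h'
  have e2 := i_mul i h'
  have e3 := r1 i h'
  have e4 := r2 i h'
  refine ⟨fun x y z => ?_, fun x => ?_, fun x => ?_, fun a b c d => ?_, fun x y => ?_,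
    fun x y => ?_, fun x y => ?_⟩
  · rw [hl' z, hr' z z, ← mul_assoc, e4, hl', hr' (r y x), e1, hr', hr', e2, e1]
  · rw [hl', hr', e2, e1, ← mul_assoc, e3]
  · rw [hr' (r x x), hr', e2, e1, p1 i h']
  · simp only [hr', e2, e1, mul_assoc]
  · have : r y x = i (r x y) := by rw [hr', hr', e2, e1]
    rw [this, hr' (i _), hr' (r x y), e2, e1, ← mul_assoc, e4]
  · have : r y x = i (r x y) := by rw [hr', hr', e2, e1]
    rw [this, hr' (r (r x y) (r x y)), e1, hr' (r x y), e3]
  · simp only [hr', e2, e1]
    exact idem_comm i h' (p1 i h' x) (p1 i h' y)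

lemma bwd {S : Type*} {l r : S → S → S}
    (M1 : ∀ x y z, l (r x y) z = r (r y x) (l z (r z z))) (M2 : ∀ x, r x (l x x) = x)
    (P0 : ∀ x, r (r x x) (r x x) = r x x)
    (P1 : ∀ a b c d, r a (r b (r c d)) = r (r a (r d c)) b)
    (P2 : ∀ x y, r (r y x) (r (r x y) (r x y)) = r y x)
    (P3 : ∀ x y, r (r (r x y) (r x y)) (r y x) = r x y)
    (P4 : ∀ x y, r (r x x) (r y y) = r (r y y) (r x x)) : IsDivisionBimagma l r := by
  obtain ⟨i, hi⟩ : ∃ i : S → S, ∀ x, i x = l x (r x x) := ⟨_, fun _ => rfl⟩
  have hsurj : ∀ x, ∃ u v, x = r u v := fun x => ⟨x, l x x, (M2 x).symm⟩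
  have hproj : ∀ w, i (r w w) = r w w := by
    intro w
    have a := M1 (r w w) (r w w) (r w w)
    rw [P0, M2] at a
    rw [hi, P0, a]
  have T4 : ∀ x y, i (r x y) = r y x := by
    intro x y
    rw [hi, M1, ← hi, hproj, P2]
  have hii : ∀ x, i (i x) = x := by
    intro x
    obtain ⟨u, v, rfl⟩ := hsurj x
    rw [T4, T4]
  have hassoc : ∀ x y z, r (r x (i y)) (i z) = r x (i (r y (i z))) := by
    intro x y z
    obtain ⟨c, d, rfl⟩ := hsurj y
    rw [T4, T4, P1]
  letI : Semigroup S := { mul := fun x y => r x (i y), mul_assoc := hassoc }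
  have hm : ∀ x y : S, x * y = r x (i y) := fun _ _ => rfl
  have hr : ∀ x y : S, r x y = x * i y := fun x y => by rw [hm, hii]
  have him : ∀ x y : S, i (x * y) = i y * i x := fun x y => by rw [hm, T4, hr]
  have reg : ∀ x : S, x * i x * x = x := by
    intro x
    obtain ⟨u, v, rfl⟩ := hsurj x
    rw [← hr, hm, T4, P3]
  have reg' : ∀ x : S, i x * x * i x = i x := fun x => by
    have := reg (i x)
    rwa [hii] at this
  have pc : ∀ x y : S, x * i x * (y * i y) = y * i y * (x * i x) := by
    intro x y
    have := P4 x y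
    rwa [hr (r x x), hr (r y y), hproj, hproj, hr, hr] at this
  have idp : ∀ e : S, e * e = e → e = e * i e := by
    intro e he
    have he' : i e * i e = i e := by rw [← him, he]
    have a1 : e = e * i e * (i e * e) := by
      rw [mul_assoc, ← mul_assoc (i e), he', ← mul_assoc, reg]
    have a2 : i e = e := by
      have c := pc e (i e)
      rw [hii] at c
      calc i e = i (e * i e * (i e * e)) := by rw [← a1]
        _ = i e * e * (e * i e) := by simp only [him, hii]
        _ = e := by rw [← c, ← a1]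
    rw [a2, he]
  have ic : ∀ e f : S, e * e = e → f * f = f → e * f = f * e := by
    intro e f he hf
    have := pc e f
    rwa [← idp e he, ← idp f hf] at this
  refine ⟨fun x y => x * y, i, mul_assoc, fun x y => ⟨?_, ?_⟩, fun x y => ?_, hr⟩
  · rintro ⟨h1, h2⟩
    replace h1 : x * y * x = x := h1
    replace h2 : y * x * y = y := h2
    have b1 : x * y * (x * y) = x * y := by rw [← mul_assoc, h1]
    have b2 : y * x * (y * x) = y * x := by rw [← mul_assoc, h2]
    have b3 : x * i x * (x * i x) = x * i x := by rw [← mul_assoc, reg]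
    have b4 : i x * x * (i x * x) = i x * x := by rw [← mul_assoc, reg']
    have c1 : y * x = i x * x := by
      calc y * x = y * (x * i x * x) := by rw [reg]
        _ = y * x * (i x * x) := by simp only [mul_assoc]
        _ = i x * x * (y * x) := ic _ _ b2 b4
        _ = i x * (x * y * x) := by simp only [mul_assoc]
        _ = i x * x := by rw [h1]
    have c2 : x * y = x * i x := by
      calc x * y = x * i x * x * y := by rw [reg]
        _ = x * i x * (x * y) := by simp only [mul_assoc]
        _ = x * y * (x * i x) := ic _ _ b3 b1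
        _ = x * y * x * i x := by simp only [mul_assoc]
        _ = x * i x := by rw [h1]
    calc y = y * x * y := h2.symm
      _ = i x * (x * y) := by rw [c1, mul_assoc]
      _ = i x := by rw [c2, ← mul_assoc, reg']
  · rintro rfl
    exact ⟨reg x, reg' x⟩
  · obtain ⟨u, v, rfl⟩ := hsurj x
    show l (r u v) y = r (i (r u v)) (i y)
    rw [M1, T4, hi]

open Tm in
/-- The seven identities; only the first two involve both operations. -/
def ids : List (Tm × Tm) :=
  [(ld (rd (var 0) (var 1)) (var 2), rd (rd (var 1) (var 0)) (ld (var 2) (rd (var 2) (var 2)))),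
   (rd (var 0) (ld (var 0) (var 0)), var 0),
   (rd (rd (var 0) (var 0)) (rd (var 0) (var 0)), rd (var 0) (var 0)),
   (rd (var 0) (rd (var 1) (rd (var 2) (var 3))), rd (rd (var 0) (rd (var 3) (var 2))) (var 1)),
   (rd (rd (var 1) (var 0)) (rd (rd (var 0) (var 1)) (rd (var 0) (var 1))), rd (var 1) (var 0)),
   (rd (rd (rd (var 0) (var 1)) (rd (var 0) (var 1))) (rd (var 1) (var 0)), rd (var 0) (var 1)),
   (rd (rd (var 0) (var 0)) (rd (var 1) (var 1)), rd (rd (var 1) (var 1)) (rd (var 0) (var 0)))]

theorem result : ∃ T : Set (Tm × Tm), T.Finite ∧ {p ∈ T | Mixed p}.encard ≤ 2 ∧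
    ∀ (S : Type*) (l r : S → S → S),
      (∀ p ∈ T, ∀ ρ : ℕ → S, p.1.eval l r ρ = p.2.eval l r ρ) ↔ IsDivisionBimagma l r := by
  refine ⟨{p | p ∈ ids}, ids.finite_toSet, ?_, fun S l r => ⟨fun h => ?_, fun h => ?_⟩⟩
  · refine le_trans (Set.encard_le_encard (t := {ids[0], ids[1]}) ?_) ?_
    · rintro p ⟨hp, hm⟩
      simp only [ids, Set.mem_setOf_eq, List.mem_cons, List.not_mem_nil, or_false] at hp
      rcases hp with rfl | rfl | rfl | rfl | rfl | rfl | rfl
      · exact Or.inl rfl
      · exact Or.inr rfl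
      all_goals simp [Mixed, Tm.usesL] at hm
    · refine (Set.encard_insert_le _ _).trans ?_
      rw [Set.encard_singleton]
      exact le_of_eq one_add_one_eq_two
  · have k : ∀ n (hn : n < ids.length) (ρ : ℕ → S), ids[n].1.eval l r ρ = ids[n].2.eval l r ρ :=
      fun n hn => h _ (List.getElem_mem hn)
    exact bwd
      (fun x y z => k 0 (by decide) fun n => if n = 0 then x else if n = 1 then y else z)
      (fun x => k 1 (by decide) fun _ => x) (fun x => k 2 (by decide) fun _ => x)
      (fun a b c d => k 3 (by decide) fun n =>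
        if n = 0 then a else if n = 1 then b else if n = 2 then c else d)
      (fun x y => k 4 (by decide) fun n => if n = 0 then x else y)
      (fun x y => k 5 (by decide) fun n => if n = 0 then x else y)
      (fun x y => k 6 (by decide) fun n => if n = 0 then x else y)
  · obtain ⟨h0, h1, h2, h3, h4, h5, h6⟩ := fwd h
    intro p hp ρ
    simp only [ids, Set.mem_setOf_eq, List.mem_cons, List.not_mem_nil, or_false] at hp
    rcases hp with rfl | rfl | rfl | rfl | rfl | rfl | rfl
    · exact h0 _ _ _
    · exact h1 _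
    · exact h2 _
    · exact h3 _ _ _ _
    · exact h4 _ _
    · exact h5 _ _
    · exact h6 _ _

end Pool.Agent.Results.MP_cc6d20_al.SemiSeparated
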